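import Pool.Agent.Helper58_MOO.Stmts

/-!
MOO (MP_6f3246_lc), module RCM: club many models are soft, hard (helper35).
-/

set_option autoImplicit false

open Cardinal
open Pool.Agent.Helper69_LOTS

namespace Pool.Agent.MOO.H35

lemma sg_inj : Function.Injective (fun ξ : Om => ({ξ} : Set Om)) := Set.singleton_injective

/-- Skolem functions for a set and a list of ordinals -/
lemma skW (R : Set Om → List Om → Om → Prop) :
    CM (fun N : Set (Set Om) => ∀ W ∈ N, ∀ h : List Om, (∀ ξ ∈ h, ({ξ} : Set Om) ∈ N) →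
      (∃ ξ, R W h ξ) → ∃ ξ, ({ξ} : Set Om) ∈ N ∧ R W h ξ) := by
  refine (CM.skolemL (X := Set Om) (fun l y => ∃ W h ξ, l = W :: h.map (fun ξ => ({ξ} : Set Om)) ∧
    y = {ξ} ∧ R W h ξ)).mono (fun N _ hN W hW h hh hξ => ?_)
  obtain ⟨ξ, hξ⟩ := hξ
  obtain ⟨y, hy, W', h', ξ', e1, e2, hR⟩ := hN (W :: h.map (fun ξ => ({ξ} : Set Om)))
    (by
      intro a ha
      rcases List.mem_cons.1 ha with rfl | ha
      · exact hW
      · obtain ⟨η, hη, rfl⟩ := List.mem_map.1 ha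
        exact hh η hη)
    ⟨{ξ}, W, h, ξ, rfl, rfl, hξ⟩
  rw [List.cons.injEq] at e1
  obtain ⟨rfl, e1⟩ := e1
  obtain rfl := (List.map_injective_iff.2 sg_inj) e1
  exact ⟨ξ', e2 ▸ hy, hR⟩

/-- countable sets attached to a set and a list of ordinals are swallowed -/
lemma swW (f : Set Om → List Om → Set Om) (hf : ∀ W h, (f W h).Countable) :
    CM (fun N : Set (Set Om) => ∀ W ∈ N, ∀ h : List Om, (∀ ξ ∈ h, ({ξ} : Set Om) ∈ N) →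
      ∀ ξ ∈ f W h, ({ξ} : Set Om) ∈ N) := by
  classical
  have h1 : ∀ W h, ∃ g : ℕ → Om, f W h ⊆ Set.range g := by
    intro W h
    by_cases hne : (f W h).Nonempty
    · obtain ⟨g, hg⟩ := (hf W h).exists_eq_range hne
      exact ⟨g, hg.le⟩
    · rw [Set.not_nonempty_iff_eq_empty] at hne
      rw [hne]
      exact ⟨fun _ => Classical.arbitrary Om, Set.empty_subset _⟩
  choose g hg using h1
  refine (CM.all (fun n : ℕ => skW (fun W h ξ => ξ = g W h n))).mono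
    (fun N _ hN W hW h hh ξ hξ => ?_)
  obtain ⟨n, rfl⟩ := hg W h hξ
  obtain ⟨y, hy, rfl⟩ := hN n W hW h hh ⟨_, rfl⟩
  exact hy

/-- the continuations which are not two-sided limits -/
def bad (y : Om → ℝ) (ln : List Om → Om) (W : Set Om) (h : List Om) : Set Om :=
  {β | ln (h ++ [β]) ∈ W ∧ ∃ a b : ℚ, (a : ℝ) < y β ∧ y β < b ∧
    ¬ ((∃ β', (a : ℝ) < y β' ∧ y β' < y β ∧ ln (h ++ [β']) ∈ W) ∧
      (∃ β', y β < y β' ∧ y β' < b ∧ ln (h ++ [β']) ∈ W))}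

lemma bad_countable {y : Om → ℝ} (hy : Function.Injective y) (ln : List Om → Om) (W : Set Om)
    (h : List Om) : (bad y ln W h).Countable := by
  have h1 : bad y ln W h ⊆ ⋃ q : ℚ × ℚ,
      ({β | ln (h ++ [β]) ∈ W ∧ (q.1 : ℝ) < y β ∧ y β < q.2 ∧
        ¬ ∃ β', (q.1 : ℝ) < y β' ∧ y β' < y β ∧ ln (h ++ [β']) ∈ W} ∪
      {β | ln (h ++ [β]) ∈ W ∧ (q.1 : ℝ) < y β ∧ y β < q.2 ∧
        ¬ ∃ β', y β < y β' ∧ y β' < q.2 ∧ ln (h ++ [β']) ∈ W}) := by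
    rintro β ⟨h1, a, b, h2, h3, h4⟩
    refine Set.mem_iUnion.2 ⟨(a, b), ?_⟩
    by_cases h5 : ∃ β', (a : ℝ) < y β' ∧ y β' < y β ∧ ln (h ++ [β']) ∈ W
    · exact Or.inr ⟨h1, h2, h3, fun h6 => h4 ⟨h5, h6⟩⟩
    · exact Or.inl ⟨h1, h2, h3, h5⟩
  refine (Set.countable_iUnion fun q => Set.Countable.union ?_ ?_).mono h1
  · refine Set.Subsingleton.countable ?_
    rintro β ⟨a1, a2, a3, a4⟩ γ ⟨b1, b2, b3, b4⟩
    rcases lt_trichotomy (y β) (y γ) with c | c | c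
    · exact absurd ⟨β, a2, c, a1⟩ b4
    · exact hy c
    · exact absurd ⟨γ, b2, c, b1⟩ a4
  · refine Set.Subsingleton.countable ?_
    rintro β ⟨a1, a2, a3, a4⟩ γ ⟨b1, b2, b3, b4⟩
    rcases lt_trichotomy (y β) (y γ) with c | c | c
    · exact absurd ⟨γ, c, b3, b1⟩ a4
    · exact hy c
    · exact absurd ⟨β, c, a3, a1⟩ b4

/-- club many models have a trace -/
lemma cm_tr : CM (fun N : Set (Set Om) => ∀ ξ, ({ξ} : Set Om) ∈ N ↔ ξ < dlt N) := by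
  refine (CM.iio (X := Set Om) (o := fun ξ : Om => ({ξ} : Set Om)) sg_inj).mono
    (fun N _ hN => ?_)
  obtain ⟨δ, hδ⟩ := hN
  rw [dlt_eq hδ]
  exact hδ

theorem cm_soft {y : Om → ℝ} {ln : List Om → Om} {c : Set (Set Om) → Set Om}
    (hy : Function.Injective y) (hc : CodeOK c) :
    CM (fun N : Set (Set Om) => Soft y ln c N) := by
  have hi : Function.Injective (fun N : {N : Set (Set Om) // N.Countable} => c N.1) := by
    intro N N' h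
    exact Subtype.ext (hc N.1 N'.1 N.2 N'.2 h)
  have h1 := CM.swallow (X := Set Om) hi (fun N => N.1 ∪ {{dlt N.1}})
    (fun N => N.2.union (Set.countable_singleton _))
  have h2 := swW (fun W h => bad y ln W h) (fun W h => bad_countable hy ln W h)
  refine ((cm_tr.and h1).and h2).mono ?_
  rintro N hN ⟨⟨h1, h2⟩, h3⟩
  refine ⟨hN, h1, fun N' hN' hc' => ?_, ?_⟩
  · have h4 := h2 ⟨N', hN'⟩ hc'
    refine ⟨fun a ha => h4 (Or.inl ha), (h1 _).1 (h4 (Or.inr rfl))⟩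
  · intro W hW h hh β hβ hl a b ha hb
    by_contra hcon
    have h4 := h3 W hW h (fun ξ hξ => (h1 ξ).2 (hh ξ hξ)) β ⟨hl, a, b, ha, hb, hcon⟩
    exact absurd ((h1 β).1 h4) (not_lt.2 hβ)

theorem rcm : RcmStmt := by
  intro x y ln c hx hy hln hc
  have hs : CM (fun N : Set (Set Om) => Soft y ln c N) := cm_soft hy hc
  refine ⟨hs, ?_⟩
  -- e2
  have hex : ∀ l : List (Set Om), ∃ N' : Set (Set Om), {a | a ∈ l} ⊆ N' ∧ N'.Countable ∧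
      Soft y ln c N' := fun l => hs.exists_ge {a | a ∈ l} (List.finite_toSet l).countable
  choose K k1 k2 k3 using hex
  have he2 : CM (fun N : Set (Set Om) => ∀ l : List (Set Om), (∀ a ∈ l, a ∈ N) → c (K l) ∈ N) := by
    refine (CM.skolemL (X := Set Om) (fun l z => z = c (K l))).mono (fun N _ hN l hl => ?_)
    obtain ⟨z, hz, rfl⟩ := hN l hl ⟨_, rfl⟩
    exact hz
  -- e3
  have he3 : CM (fun N : Set (Set Om) => ∀ q : ℚ × ℚ, ∀ η : Om, ({η} : Set Om) ∈ N →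
      (∃ β, η ≤ β ∧ (q.1 : ℝ) < y β ∧ y β < q.2) →
      ∃ β, ({β} : Set Om) ∈ N ∧ η ≤ β ∧ (q.1 : ℝ) < y β ∧ y β < q.2) :=
    CM.all (fun q : ℚ × ℚ => CM.skolem1 (X := Set Om) (i := fun ξ : Om => ({ξ} : Set Om))
      (k := fun ξ : Om => ({ξ} : Set Om)) sg_inj
      (fun η β => η ≤ β ∧ (q.1 : ℝ) < y β ∧ y β < q.2))
  -- o1
  have ho1 : CM (fun N : Set (Set Om) => ∀ q : ℚ × ℚ, ∀ W ∈ N,
      {m | ∃ h, m = ln h ∧ ∃ ξ, (q.1 : ℝ) < x ξ ∧ x ξ < q.2 ∧ ln (h ++ [ξ]) ∈ W} ∈ N) := by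
    refine CM.all (fun q : ℚ × ℚ => (CM.skolem1 (X := Set Om) (i := id) (k := id)
      Function.injective_id (fun W V => V = {m | ∃ h, m = ln h ∧ ∃ ξ, (q.1 : ℝ) < x ξ ∧
        x ξ < q.2 ∧ ln (h ++ [ξ]) ∈ W})).mono (fun N _ hN W hW => ?_))
    obtain ⟨V, hV, e⟩ := hN W hW ⟨_, rfl⟩
    rw [← e]
    exact hV
  have ho2 : CM (fun N : Set (Set Om) => ∀ q : (ℚ × ℚ) × (ℚ × ℚ), ∀ W ∈ N,
      {m | ∃ h, m = ln h ∧ (∃ β, (q.1.1 : ℝ) < y β ∧ y β < q.1.2 ∧ ln (h ++ [β]) ∈ W) ∧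
        (∃ β, (q.2.1 : ℝ) < y β ∧ y β < q.2.2 ∧ ln (h ++ [β]) ∈ W)} ∈ N) := by
    refine CM.all (fun q : (ℚ × ℚ) × (ℚ × ℚ) => (CM.skolem1 (X := Set Om) (i := id) (k := id)
      Function.injective_id (fun W V => V = {m | ∃ h, m = ln h ∧
        (∃ β, (q.1.1 : ℝ) < y β ∧ y β < q.1.2 ∧ ln (h ++ [β]) ∈ W) ∧
        (∃ β, (q.2.1 : ℝ) < y β ∧ y β < q.2.2 ∧ ln (h ++ [β]) ∈ W)})).mono
      (fun N _ hN W hW => ?_))
    obtain ⟨V, hV, e⟩ := hN W hW ⟨_, rfl⟩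
    rw [← e]
    exact hV
  have ho3 := CM.all (fun q : ℚ × ℚ =>
    skW (fun W h ξ => (q.1 : ℝ) < x ξ ∧ x ξ < q.2 ∧ ln (h ++ [ξ]) ∈ W))
  have ho4 := CM.all (fun q : ℚ × ℚ =>
    skW (fun W h ξ => (q.1 : ℝ) < y ξ ∧ y ξ < q.2 ∧ ln (h ++ [ξ]) ∈ W))
  refine ((((((hs.and he2).and he3).and ho1).and ho2).and ho3).and ho4).mono ?_
  rintro N hN ⟨⟨⟨⟨⟨⟨s, e2⟩, e3⟩, o1⟩, o2⟩, o3⟩, o4⟩
  refine ⟨s, fun l hl => ?_, fun η hη a b hab => ?_, fun W hW a b => o1 (a, b) W hW,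
    fun W hW a b a' b' => o2 ((a, b), (a', b')) W hW, fun W hW h hh a b hξ => ?_,
    fun W hW h hh a b hξ => ?_⟩
  · have h1 := e2 l hl
    have h2 := s.dec (K l) (k2 l) h1
    exact ⟨K l, k3 l, h2.1, h1, h2.2, fun a ha => k1 l ha⟩
  · have h1 : ∃ β, η ≤ β ∧ (a : ℝ) < y β ∧ y β < b := by
      by_contra hcon
      push Not at hcon
      refine hab ((Om_Iio_countable η).mono fun β hβ => ?_)
      by_contra h2
      exact absurd hβ.2 (not_lt.2 (hcon β (not_lt.1 h2) hβ.1))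
    obtain ⟨β, h2, h3, h4, h5⟩ := e3 (a, b) η ((s.tr η).2 hη) h1
    exact ⟨β, h3, (s.tr β).1 h2, h4, h5⟩
  · obtain ⟨ξ, h1, h2, h3, h4⟩ := o3 (a, b) W hW h (fun ξ hξ => (s.tr ξ).2 (hh ξ hξ)) hξ
    exact ⟨ξ, (s.tr ξ).1 h1, h2, h3, h4⟩
  · obtain ⟨ξ, h1, h2, h3, h4⟩ := o4 (a, b) W hW h (fun ξ hξ => (s.tr ξ).2 (hh ξ hξ)) hξ
    exact ⟨ξ, (s.tr ξ).1 h1, h2, h3, h4⟩

end Pool.Agent.MOO.H35
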