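import Pool.Agent.Helper58_MOO.Stmts

/-!
MOO (MP_6f3246_lc), module RED: density in the forcing `RE` (helper35).
-/

set_option autoImplicit false

open Cardinal
open Pool.Agent.Helper69_LOTS

namespace Pool.Agent.MOO.H35

variable {x y : Om → ℝ} {ln : List Om → Om} {c : Set (Set Om) → Set Om}

/-- adding a pair and a soft model -/
lemma add {p : RE x y ln c} {α β : Om} {N' : Set (Set Om)} (hα : ∀ q ∈ p.f, q.1 ≠ α)
    (hN' : Soft y ln c N')
    (hch : ∀ N, (N ∈ p.H ∨ N ∈ p.S) → N ≠ N' → Prec c N N' ∨ Prec c N' N)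
    (hinc : ∀ q ∈ p.f, (x q.1 < x α → y q.2 < y β) ∧ (x α < x q.1 → y β < y q.2))
    (hr1 : ∀ N ∈ p.H, (α < dlt N ↔ β < dlt N)) (hr2 : α < dlt N' ∧ dlt N' ≤ β)
    (hr3 : ∀ q ∈ p.f, ∃ N, (N ∈ p.H ∨ N ∈ p.S ∨ N = N') ∧
      ((q.2 < dlt N ∧ dlt N ≤ β) ∨ (β < dlt N ∧ dlt N ≤ q.2))) :
    ∃ q : RE x y ln c, (∃ β, (α, β) ∈ q.f) ∧ q ≤ p := by
  classical
  have hm : ∀ {N}, (N ∈ p.H ∨ N ∈ insert N' p.S) → (N ∈ p.H ∨ N ∈ p.S) ∨ N = N' := by
    intro N h
    rcases h with h | h
    · exact Or.inl (Or.inl h)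
    · rcases Finset.mem_insert.1 h with h | h
      · exact Or.inr h
      · exact Or.inl (Or.inr h)
  have hm' : ∀ {N}, (N ∈ p.H ∨ N ∈ p.S) → (N ∈ p.H ∨ N ∈ insert N' p.S) := by
    intro N h
    rcases h with h | h
    · exact Or.inl h
    · exact Or.inr (Finset.mem_insert_of_mem h)
  refine ⟨{ f := insert (α, β) p.f
            H := p.H
            S := insert N' p.S
            hH := p.hH
            hS := ?_
            ch := ?_
            fn := ?_
            inc := ?_
            r1 := ?_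
            r2 := ?_
            r3 := ?_ }, ⟨β, Finset.mem_insert_self _ _⟩, Finset.subset_insert _ _,
              Finset.Subset.refl _, Finset.subset_insert _ _⟩
  · intro N h
    rcases Finset.mem_insert.1 h with h | h
    · rw [h]; exact hN'
    · exact p.hS N h
  · intro N M hN hM hne
    rcases hm hN with h1 | h1
    · rcases hm hM with h2 | h2
      · exact p.ch N M h1 h2 hne
      · rw [h2]
        exact hch N h1 (h2 ▸ hne)
    · rcases hm hM with h2 | h2
      · rw [h1]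
        exact (hch M h2 (fun h => hne (h1.trans h.symm))).symm
      · exact absurd (h1.trans h2.symm) hne
  · intro q hq r hr h
    rcases Finset.mem_insert.1 hq with rfl | hq
    · rcases Finset.mem_insert.1 hr with rfl | hr
      · rfl
      · exact absurd h.symm (hα r hr)
    · rcases Finset.mem_insert.1 hr with rfl | hr
      · exact absurd h (hα q hq)
      · exact p.fn q hq r hr h
  · intro q hq r hr h
    rcases Finset.mem_insert.1 hq with rfl | hq
    · rcases Finset.mem_insert.1 hr with rfl | hr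
      · exact absurd h (lt_irrefl _)
      · exact (hinc r hr).2 h
    · rcases Finset.mem_insert.1 hr with rfl | hr
      · exact (hinc q hq).1 h
      · exact p.inc q hq r hr h
  · intro q hq N hN
    rcases Finset.mem_insert.1 hq with rfl | hq
    · exact hr1 N hN
    · exact p.r1 q hq N hN
  · intro q hq
    rcases Finset.mem_insert.1 hq with rfl | hq
    · exact ⟨N', Or.inr (Finset.mem_insert_self _ _), hr2⟩
    · obtain ⟨N, hN, h⟩ := p.r2 q hq
      exact ⟨N, hm' hN, h⟩
  · have h3 : ∀ q ∈ p.f, ∃ N, (N ∈ p.H ∨ N ∈ insert N' p.S) ∧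
        ((q.2 < dlt N ∧ dlt N ≤ β) ∨ (β < dlt N ∧ dlt N ≤ q.2)) := by
      intro q hq
      obtain ⟨N, hN, h⟩ := hr3 q hq
      rcases hN with hN | hN | hN
      · exact ⟨N, Or.inl hN, h⟩
      · exact ⟨N, Or.inr (Finset.mem_insert_of_mem hN), h⟩
      · exact ⟨N, Or.inr (Finset.mem_insert.2 (Or.inl hN)), h⟩
    intro q hq r hr hne
    rcases Finset.mem_insert.1 hq with rfl | hq
    · rcases Finset.mem_insert.1 hr with rfl | hr
      · exact absurd rfl hne
      · obtain ⟨N, hN, h⟩ := h3 r hr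
        exact ⟨N, hN, h.symm⟩
    · rcases Finset.mem_insert.1 hr with rfl | hr
      · exact h3 q hq
      · obtain ⟨N, hN, h⟩ := p.r3 q hq r hr hne
        exact ⟨N, hm' hN, h⟩

/-- a rational interval between two finite sets of values -/
lemma between (ht : TwoSided y) (A B : Finset Om) (hAB : ∀ a ∈ A, ∀ b ∈ B, y a < y b) :
    ∃ a b : ℚ, (∀ β ∈ A, y β < a) ∧ (∀ β ∈ B, (b : ℝ) < y β) ∧
      ¬ {β | (a : ℝ) < y β ∧ y β < b}.Countable := by
  rcases A.eq_empty_or_nonempty with rfl | hA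
  · rcases B.eq_empty_or_nonempty with rfl | hB
    · by_contra hcon
      push Not at hcon
      have h1 : (Set.univ : Set Om).Countable := by
        refine (Set.countable_iUnion (fun q : ℚ × ℚ =>
          hcon q.1 q.2 (fun β hβ => absurd hβ (Finset.notMem_empty β))
            (fun β hβ => absurd hβ (Finset.notMem_empty β)))).mono (fun β _ => ?_)
        obtain ⟨a, ha⟩ := exists_rat_lt (y β)
        obtain ⟨b, hb⟩ := exists_rat_gt (y β)
        exact Set.mem_iUnion.2 ⟨(a, b), ha, hb⟩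
      exact not_countable (Set.countable_univ_iff.1 h1)
    · obtain ⟨β1, h1, h2⟩ := B.exists_min_image y hB
      obtain ⟨a0, ha0⟩ := exists_rat_lt (y β1)
      obtain ⟨b0, hb0⟩ := exists_rat_gt (y β1)
      have h3 := (ht β1 a0 b0 ha0 hb0).1
      by_contra hcon
      push Not at hcon
      refine h3 ((Set.countable_iUnion (fun q : {q : ℚ // (q : ℝ) < y β1} =>
        hcon a0 q.1 (fun β hβ => absurd hβ (Finset.notMem_empty β))
          (fun β hβ => lt_of_lt_of_le q.2 (h2 β hβ)))).mono ?_)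
      rintro β ⟨h4, h5⟩
      obtain ⟨q, hq, hq'⟩ := exists_rat_btwn h5
      exact Set.mem_iUnion.2 ⟨⟨q, hq'⟩, h4, hq⟩
  · obtain ⟨β0, h1, h2⟩ := A.exists_max_image y hA
    have h3 : ∃ b : ℚ, y β0 < b ∧ ∀ β ∈ B, (b : ℝ) < y β := by
      rcases B.eq_empty_or_nonempty with rfl | hB
      · obtain ⟨b, hb⟩ := exists_rat_gt (y β0)
        exact ⟨b, hb, fun β hβ => absurd hβ (Finset.notMem_empty β)⟩
      · obtain ⟨β1, h3, h4⟩ := B.exists_min_image y hB
        obtain ⟨b, hb, hb'⟩ := exists_rat_btwn (hAB β0 h1 β1 h3)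
        exact ⟨b, hb, fun β hβ => lt_of_lt_of_le hb' (h4 β hβ)⟩
    obtain ⟨b, hb, hb'⟩ := h3
    obtain ⟨a0, ha0⟩ := exists_rat_lt (y β0)
    have h3 := (ht β0 a0 b ha0 hb).2
    by_contra hcon
    push Not at hcon
    refine h3 ((Set.countable_iUnion (fun q : {q : ℚ // y β0 < (q : ℝ)} =>
      hcon q.1 b (fun β hβ => lt_of_le_of_lt (h2 β hβ) q.2) hb')).mono ?_)
    rintro β ⟨h4, h5⟩
    obtain ⟨q, hq, hq'⟩ := exists_rat_btwn h4
    exact Set.mem_iUnion.2 ⟨⟨q, hq⟩, hq', h5⟩

theorem red (hrcm : RcmStmt) : RedStmt := by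
  classical
  intro x y ln c hx hy hln hc ht α p
  by_cases hα : ∃ q ∈ p.f, q.1 = α
  · obtain ⟨q, hq, rfl⟩ := hα
    exact ⟨p, ⟨q.2, hq⟩, le_rfl⟩
  push Not at hα
  -- the interval
  obtain ⟨a, b, ha, hb, hab⟩ := between ht
    ((p.f.filter (fun q => x q.1 < x α)).image Prod.snd)
    ((p.f.filter (fun q => x α < x q.1)).image Prod.snd) (by
      intro u hu v hv
      obtain ⟨q, hq, rfl⟩ := Finset.mem_image.1 hu
      obtain ⟨r, hr, rfl⟩ := Finset.mem_image.1 hv
      rw [Finset.mem_filter] at hq hr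
      exact p.inc q hq.1 r hr.1 (hq.2.trans hr.2))
  have hinc : ∀ β : Om, (a : ℝ) < y β → y β < b →
      ∀ q ∈ p.f, (x q.1 < x α → y q.2 < y β) ∧ (x α < x q.1 → y β < y q.2) := by
    intro β h1 h2 q hq
    refine ⟨fun h => (ha q.2 ?_).trans h1, fun h => h2.trans (hb q.2 ?_)⟩
    · exact Finset.mem_image_of_mem _ (Finset.mem_filter.2 ⟨hq, h⟩)
    · exact Finset.mem_image_of_mem _ (Finset.mem_filter.2 ⟨hq, h⟩)
  -- all models are countable
  have hsoft : ∀ N, (N ∈ p.H ∨ N ∈ p.S) → Soft y ln c N := by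
    intro N h
    rcases h with h | h
    · exact (p.hH N h).toSoft
    · exact p.hS N h
  by_cases hH : ∃ N ∈ p.H, α < dlt N
  · -- the least hard model above `α`
    obtain ⟨H0, h0, hmin⟩ := (p.H.filter (fun N => α < dlt N)).exists_min_image dlt (by
      obtain ⟨N, hN, h⟩ := hH
      exact ⟨N, Finset.mem_filter.2 ⟨hN, h⟩⟩)
    rw [Finset.mem_filter] at h0
    have hh := p.hH H0 h0.1
    set l : List (Set Om) := {α} ::
      (((p.f.image Prod.snd).filter (fun ξ => ξ < dlt H0)).toList.map (fun ξ => ({ξ} : Set Om)) ++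
        ((p.H ∪ p.S).filter (fun N => Prec c N H0)).toList.map c) with hl
    obtain ⟨N', s1, s2, s3, s4, s5⟩ := hh.e2 l (by
      intro u hu
      rw [hl] at hu
      rcases List.mem_cons.1 hu with rfl | hu
      · exact (hh.tr α).2 h0.2
      rcases List.mem_append.1 hu with hu | hu
      · obtain ⟨ξ, hξ, rfl⟩ := List.mem_map.1 hu
        rw [Finset.mem_toList, Finset.mem_filter] at hξ
        exact (hh.tr ξ).2 hξ.2
      · obtain ⟨N, hN, rfl⟩ := List.mem_map.1 hu
        rw [Finset.mem_toList, Finset.mem_filter] at hN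
        exact hN.2.2.1)
    have hαN : α < dlt N' := (s1.tr α).1 (s5 _ (by rw [hl]; exact List.mem_cons_self))
    have hval : ∀ q ∈ p.f, q.2 < dlt H0 → q.2 < dlt N' := by
      intro q hq hq'
      refine (s1.tr q.2).1 (s5 _ ?_)
      rw [hl]
      refine List.mem_cons_of_mem _ (List.mem_append_left _ (List.mem_map.2 ⟨q.2, ?_, rfl⟩))
      rw [Finset.mem_toList, Finset.mem_filter]
      exact ⟨Finset.mem_image_of_mem _ hq, hq'⟩
    have hmod : ∀ N, (N ∈ p.H ∨ N ∈ p.S) → Prec c N H0 → Prec c N N' := by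
      intro N hN hp
      have h1 : c N ∈ N' := by
        refine s5 _ ?_
        rw [hl]
        refine List.mem_cons_of_mem _ (List.mem_append_right _ (List.mem_map.2 ⟨N, ?_, rfl⟩))
        rw [Finset.mem_toList, Finset.mem_filter, Finset.mem_union]
        exact ⟨hN, hp⟩
      have h2 := s1.dec N (hsoft N hN).cnt h1
      exact ⟨h2.1, h1, h2.2⟩
    obtain ⟨β, b1, b2, b3, b4⟩ := hh.e3 (dlt N') s4 a b hab
    refine add hα s1 (fun N hN hne => ?_) (hinc β b3 b4) (fun N hN => ⟨fun h => ?_, fun h => ?_⟩)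
      ⟨hαN, b1⟩ (fun q hq => ?_)
    · by_cases e : N = H0
      · rw [e]
        exact Or.inr ⟨s2, s3, s4⟩
      · rcases p.ch N H0 hN (Or.inl h0.1) e with h | h
        · exact Or.inl (hmod N hN h)
        · exact Or.inr ⟨s2.trans h.1, h.1 s3, s4.trans h.2.2⟩
    · exact lt_of_lt_of_le b2 (hmin N (Finset.mem_filter.2 ⟨hN, h⟩))
    · exact hαN.trans (lt_of_le_of_lt b1 h)
    · rcases lt_or_ge q.2 (dlt H0) with h | h
      · exact ⟨N', Or.inr (Or.inr rfl), Or.inl ⟨hval q hq h, b1⟩⟩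
      · exact ⟨H0, Or.inl h0.1, Or.inr ⟨b2, h⟩⟩
  · -- a new soft model on top
    push Not at hH
    obtain ⟨N', s0, s00, s1⟩ := ((hrcm x y ln c hx hy hln hc).1).exists_ge
      (({{α}} : Set (Set Om)) ∪ ((fun q : Om × Om => ({q.2} : Set Om)) '' (p.f : Set (Om × Om)) ∪
        c '' ((p.H ∪ p.S : Finset (Set (Set Om))) : Set (Set (Set Om)))))
      ((Set.countable_singleton _).union
        (((Finset.countable_toSet _).image _).union ((Finset.countable_toSet _).image _)))
    have hαN : α < dlt N' := (s1.tr α).1 (s0 (Or.inl rfl))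
    have hval : ∀ q ∈ p.f, q.2 < dlt N' := by
      intro q hq
      exact (s1.tr q.2).1 (s0 (Or.inr (Or.inl ⟨q, hq, rfl⟩)))
    have hmod : ∀ N, (N ∈ p.H ∨ N ∈ p.S) → Prec c N N' := by
      intro N hN
      have h1 : c N ∈ N' := by
        refine s0 (Or.inr (Or.inr ⟨N, ?_, rfl⟩))
        rw [Finset.mem_coe, Finset.mem_union]
        exact hN
      have h2 := s1.dec N (hsoft N hN).cnt h1
      exact ⟨h2.1, h1, h2.2⟩
    have hex : ∃ β, dlt N' ≤ β ∧ (a : ℝ) < y β ∧ y β < b := by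
      by_contra hcon
      push Not at hcon
      refine hab ((Om_Iio_countable (dlt N')).mono fun β hβ => ?_)
      by_contra h2
      exact absurd hβ.2 (not_lt.2 (hcon β (not_lt.1 h2) hβ.1))
    obtain ⟨β, b1, b3, b4⟩ := hex
    refine add hα s1 (fun N hN _ => Or.inl (hmod N hN)) (hinc β b3 b4)
      (fun N hN => ⟨fun h => ?_, fun h => ?_⟩) ⟨hαN, b1⟩
      (fun q hq => ⟨N', Or.inr (Or.inr rfl), Or.inl ⟨hval q hq, b1⟩⟩)
    · exact absurd h (not_lt.2 (hH N hN))
    · have h1 := (hmod N (Or.inl hN)).2.2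
      exact absurd (h.trans (lt_of_lt_of_le h1 b1)) (lt_irrefl _)

end Pool.Agent.MOO.H35
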